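import Pool.Agent.R185.CumSub

/-!
# Tie-breaking discrepancies in self-interest subtraction games are bounded

Write `E = 2 o¹ - h` and `F = h - 2 o²`.  The recursion reads `E(h) = s - F'(h - s)` (maximal over
the moves) and `F(h) = s - E'(h - s)`, the prime standing for the dual setting.  With `m = max S`,
`E'(h - s) ≥ m - F(h - s - m)` gives `F(h) ≤ F(h - s - m) - (m - s)`.  So `F` is bounded from
above, hence `E` is bounded from below, and `E ≤ F`.
-/

namespace Pool.Agent.Results.MP_5cfb27_co.BoundedDiscrepancy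

open Pool.Agent.R185.CumSub

variable {S : Finset ℕ}

theorem total_le (h : ℕ) : ∀ c d, (outcome S c d h).1 + (outcome S c d h).2 ≤ h := by
  induction h using Nat.strong_induction_on with
  | _ h ih =>
    intro c d
    by_cases hm : moves S h = ∅
    · rw [outcome_empty hm]; simp
    · obtain ⟨⟨s, hs, e1, e2⟩, -, -⟩ := outcome_spec hm c d
      have hs' := (mem_moves.1 hs).2
      have := ih (h - s) (by omega) d c
      omega

/-- `h - 2 o²(h) ≤ 2 m` -/
theorem upper {m : ℕ} (hm : m ∈ S) (hm1 : 1 ≤ m) (hmax : ∀ s ∈ S, s ≤ m) (h : ℕ) :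
    ∀ c d, h ≤ 2 * (outcome S c d h).2 + 2 * m := by
  induction h using Nat.strong_induction_on with
  | _ h ih =>
    intro c d
    rcases Nat.lt_or_ge h (2 * m) with hlt | hge
    · omega
    · have hne : moves S h ≠ ∅ := by
        apply Finset.nonempty_iff_ne_empty.1
        exact ⟨m, mem_moves.2 ⟨hm, hm1, by omega⟩⟩
      obtain ⟨⟨s, hs, e1, e2⟩, -, -⟩ := outcome_spec hne c d
      have hs' := mem_moves.1 hs
      have hsm := hmax s hs'.1
      have hmv : m ∈ moves S (h - s) := mem_moves.2 ⟨hm, hm1, by omega⟩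
      have hne' : moves S (h - s) ≠ ∅ := Finset.nonempty_iff_ne_empty.1 ⟨m, hmv⟩
      obtain ⟨-, b, -⟩ := outcome_spec hne' d c
      have b1 := b m hmv
      have := ih (h - s - m) (by omega) c d
      omega

/-- `2 o¹(h) - h ≥ - m` -/
theorem lower {m : ℕ} (hm : m ∈ S) (hm1 : 1 ≤ m) (hmax : ∀ s ∈ S, s ≤ m) (h : ℕ) (c d : Conv) :
    h ≤ 2 * (outcome S c d h).1 + m := by
  rcases Nat.lt_or_ge h m with hlt | hge
  · omega
  · have hmv : m ∈ moves S h := mem_moves.2 ⟨hm, hm1, by omega⟩
    have hne : moves S h ≠ ∅ := Finset.nonempty_iff_ne_empty.1 ⟨m, hmv⟩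
    obtain ⟨-, b, -⟩ := outcome_spec hne c d
    have b1 := b m hmv
    have := upper hm hm1 hmax (h - m) d c
    omega

/-- For every finite nonempty set `S` of positive integers, all settings `X = c v d`,
`Y = c' v d'`, both players and all heap sizes `h`, the discrepancy satisfies
`|δ^i_{X → Y}(h)| ≤ (3/2) max S`.  In particular all discrepancies are bounded in `h`. -/
theorem result (S : Finset ℕ) (hS : S.Nonempty) (hpos : ∀ s ∈ S, 1 ≤ s) (c d c' d' : Conv)
    (h : ℕ) :
    2 * |((outcome S c' d' h).1 : ℤ) - (outcome S c d h).1| ≤ 3 * (S.max' hS : ℤ) ∧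
    2 * |((outcome S c' d' h).2 : ℤ) - (outcome S c d h).2| ≤ 3 * (S.max' hS : ℤ) := by
  have hm := S.max'_mem hS
  have hm1 := hpos _ hm
  have hmax : ∀ s ∈ S, s ≤ S.max' hS := fun s hs => S.le_max' s hs
  generalize S.max' hS = m at *
  have u1 := upper hm hm1 hmax h c d
  have u2 := upper hm hm1 hmax h c' d'
  have l1 := lower hm hm1 hmax h c d
  have l2 := lower hm hm1 hmax h c' d'
  have t1 := total_le (S := S) h c d
  have t2 := total_le (S := S) h c' d'
  constructor
  · rcases abs_cases (((outcome S c' d' h).1 : ℤ) - (outcome S c d h).1) with ⟨e, _⟩ | ⟨e, _⟩ <;>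
      rw [e] <;> omega
  · rcases abs_cases (((outcome S c' d' h).2 : ℤ) - (outcome S c d h).2) with ⟨e, _⟩ | ⟨e, _⟩ <;>
      rw [e] <;> omega

end Pool.Agent.Results.MP_5cfb27_co.BoundedDiscrepancy
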